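import Mathlib
import Pool.Agent.Lib.MP_068a9c_al.MagN

set_option autoImplicit false

namespace Pool.Agent.Results.MP_068a9c_al.AbelianCover

universe u v

/-- For every finite subgroup `H`, any finitely many elements of prime order of `N(H)/H`
generate a finite subgroup of `N(H)/H`. -/
def PrimFinite (G : Type u) [Group G] : Prop :=
  ∀ H : Subgroup G, Finite H →
    ∀ S : Set (Subgroup.normalizer (H : Set G) ⧸ H.subgroupOf (Subgroup.normalizer (H : Set G))),
      S.Finite → (∀ a ∈ S, (orderOf a).Prime) → Finite (Subgroup.closure S)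

open Pool.Agent.Lib.MP_068a9c_al.Gen

theorem result (n : ℕ) (hn : 1 ≤ n) (K : Type u) [Group K] (hK : ∀ g : K, ∃ m : ℕ, g ^ n ^ m = 1)
    {ι : Type v} (s : ι → K) (hs : Subgroup.closure (Set.range s) = ⊤) :
    ∃ (G : Type u) (_ : Group G) (f : G →* K) (t : ι → G),
      PrimFinite G ∧ Function.Surjective f ∧
      (∀ x ∈ f.ker, ∀ y ∈ f.ker, x * y = y * x) ∧ (∀ x ∈ f.ker, x ^ n = 1) ∧
      Subgroup.closure (Set.range t) = ⊤ ∧ ∀ i, f (t i) = s i := by
  obtain ⟨G, _, π, t, hc, ht, hπ⟩ := exists_cover (Nat.one_le_iff_ne_zero.1 hn) hK s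
  refine ⟨G, inferInstance, π, t, hc.primFinite, ?_, hc.comm, hc.pow, ht, hπ⟩
  rw [← MonoidHom.range_eq_top, MonoidHom.range_eq_map, ← ht, MonoidHom.map_closure,
    ← Set.range_comp, show π ∘ t = s from funext hπ, hs]

end Pool.Agent.Results.MP_068a9c_al.AbelianCover
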