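import Mathlib
import Pool.Agent.Lib.MP_068a9c_al.ResFin

set_option autoImplicit false

namespace Pool.Agent.Results.MP_068a9c_al.EveryOddPrime

/-- Any two elements generate a finite subgroup. -/
def BinaryFinite (G : Type) [Group G] : Prop :=
  ∀ x y : G, Finite (Subgroup.closure ({x, y} : Set G))

/-- For every finite subgroup `H`, any finitely many elements of prime order of `N(H)/H`
generate a finite subgroup of `N(H)/H`. -/
def PrimFinite (G : Type) [Group G] : Prop :=
  ∀ H : Subgroup G, Finite H →
    ∀ S : Set (Subgroup.normalizer (H : Set G) ⧸ H.subgroupOf (Subgroup.normalizer (H : Set G))),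
      S.Finite → (∀ a ∈ S, (orderOf a).Prime) → Finite (Subgroup.closure S)

/-- The smallest class of groups that contains all 2-groups and all binary finite groups and is
closed under extensions, embeddings, homomorphic images and directed unions. -/
inductive Built : (G : Type) → [Group G] → Prop
  | two (G : Type) [Group G] : IsPGroup 2 G → Built G
  | bin (G : Type) [Group G] : BinaryFinite G → Built G
  | ext (G : Type) [Group G] (N : Subgroup G) [N.Normal] : Built N → Built (G ⧸ N) → Built G
  | sub (G H : Type) [Group G] [Group H] (f : H →* G) :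
      Function.Injective f → Built G → Built H
  | quo (G H : Type) [Group G] [Group H] (f : G →* H) :
      Function.Surjective f → Built G → Built H
  | union (G : Type) [Group G] (S : Set (Subgroup G)) :
      DirectedOn (· ≤ ·) S → (∀ g : G, ∃ H ∈ S, g ∈ H) → (∀ H ∈ S, Built H) → Built G

open Pool.Agent.Lib.MP_068a9c_al Pool.Agent.Lib.MP_068a9c_al.Gen

theorem not_sec {p : ℕ} [Fact p.Prime] (hp : Odd p) (G : Type) [Group G] (h : Built G) :
    ¬ Sec (GS p) G := by
  induction h with
  | two G h => exact fun h' => GS_not_two hp (h'.isPGroup h)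
  | bin G h => exact fun h' => GS_not_binFin (h'.binFin fun x y => have := h x y; Set.toFinite _)
  | ext G N _ _ h1 h2 => exact fun h' => (Sec.ext_cases (GS_sec hp) N h').elim h1 h2
  | sub G H f hf _ h => exact fun h' => h (h'.trans (sec_of_injective f hf))
  | quo G H f hf _ h => exact fun h' => h (h'.trans (Sec.of_surjective f hf))
  | union G S h1 h2 _ h =>
    intro h'
    obtain ⟨H, hH, h3⟩ := sec_of_directed closure_gens h1 h2 h'
    exact h H hH h3

theorem result (p : ℕ) (hp : p.Prime) (hodd : Odd p) :
    ∃ (G : Type) (_ : Group G), IsPGroup p G ∧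
      (∃ x y : G, Subgroup.closure ({x, y} : Set G) = ⊤) ∧ Group.ResiduallyFinite G ∧
      PrimFinite G ∧ ¬ Built G := by
  have : Fact p.Prime := ⟨hp⟩
  have := GS_residuallyFinite (p := p)
  obtain ⟨G, _, π, t, hc, ht, hπ, hr⟩ :=
    exists_cover' hp.ne_zero (GS_isPGroup hodd) ![ga p, gb p]
  have h1 : Set.range t = {t 0, t 1} := by
    ext x
    simp [Fin.exists_fin_two, eq_comm]
  refine ⟨G, inferInstance, hc.pg, ⟨t 0, t 1, h1 ▸ ht⟩, hr, hc.primFinite,
    fun h => not_sec hodd G h (Sec.of_surjective π ?_)⟩
  rw [← MonoidHom.range_eq_top, MonoidHom.range_eq_map, ← ht, MonoidHom.map_closure, h1,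
    Set.image_pair, hπ, hπ]
  exact closure_gens

end Pool.Agent.Results.MP_068a9c_al.EveryOddPrime
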